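import Mathlib

/-!
# MP_9d720b_co: primitive tensors of maximal primitive degree

A nonnegative tensor of order `m ≥ 2` and dimension `n ≥ 2` is primitive of primitive degree
`(n - 1) ^ 2 + 1` if and only if, after a permutation of the labels,

* its majorization matrix `(a_{i j ⋯ j})` has the zero pattern of the Wielandt matrix `W_n`, and
* every nonzero entry `a_{i i₂ ⋯ i_m}` has an index `i_s` with `i_s = i + 1` or
  `i - i_s ≥ n - 2`.
-/

set_option autoImplicit false

namespace Pool.Agent.Results.MP_9d720b_co.ExtremalTensors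

/-- Tensors of order `m` and dimension `n`: the entry `a_{i i₂ ⋯ i_m}` is `A i f`, where
`f : Fin (m - 1) → Fin n` lists the indices `i₂, …, i_m`. -/
abbrev Tensor (m n : ℕ) := Fin n → (Fin (m - 1) → Fin n) → ℝ

/-- `(A x)_i = ∑ a_{i i₂ ⋯ i_m} x_{i₂} ⋯ x_{i_m}`. -/
def tensorApply {m n : ℕ} (A : Tensor m n) (x : Fin n → ℝ) (i : Fin n) : ℝ :=
  ∑ f : Fin (m - 1) → Fin n, A i f * ∏ s, x (f s)

/-- `T_A(x) = (A x)^{[1/(m-1)]}`. -/
noncomputable def tensorMap {m n : ℕ} (A : Tensor m n) (x : Fin n → ℝ) : Fin n → ℝ :=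
  fun i => tensorApply A x i ^ (1 / ((m : ℝ) - 1))

/-- `A` is primitive with primitive degree `g`: `g` is the least positive `r` such that
`T_A^r(x)` is positive in every coordinate for every nonzero `x ≥ 0`. -/
def HasPrimitiveDegree {m n : ℕ} (A : Tensor m n) (g : ℕ) : Prop :=
  IsLeast {r : ℕ | 0 < r ∧ ∀ x : Fin n → ℝ, (∀ i, 0 ≤ x i) → x ≠ 0 →
    ∀ i, 0 < ((tensorMap A)^[r] x) i} g

/-- The nonzero positions of the Wielandt matrix `W_n`, labels `0, …, n - 1`:
`(i, i + 1)`, `(n - 1, 0)` and `(n - 1, 1)`. -/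
def W (n i j : ℕ) : Prop := j = i + 1 ∨ (i = n - 1 ∧ (j = 0 ∨ j = 1))

section Abstract

variable {n k : ℕ}

/-- The map on supports induced by the zero pattern `H` of a tensor. -/
def supMap (H : Fin n → (Fin k → Fin n) → Prop) (S : Set (Fin n)) : Set (Fin n) :=
  {i | ∃ f : Fin k → Fin n, H i f ∧ ∀ s, f s ∈ S}

variable (H : Fin n → (Fin k → Fin n) → Prop)

lemma supMap_mono {S S' : Set (Fin n)} (h : S ⊆ S') : supMap H S ⊆ supMap H S' := by
  rintro i ⟨f, hf, hs⟩
  exact ⟨f, hf, fun s => h (hs s)⟩

lemma iter_mono (t : ℕ) {S S' : Set (Fin n)} (h : S ⊆ S') :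
    (supMap H)^[t] S ⊆ (supMap H)^[t] S' := by
  induction t with
  | zero => simpa using h
  | succ t ih =>
    rw [Function.iterate_succ_apply', Function.iterate_succ_apply']
    exact supMap_mono H ih

lemma mem_single (i j : Fin n) : i ∈ supMap H {j} ↔ H i (fun _ => j) := by
  constructor
  · rintro ⟨f, hf, hs⟩
    have : f = fun _ => j := by
      funext s
      exact hs s
    rwa [this] at hf
  · intro h
    exact ⟨fun _ => j, h, fun _ => rfl⟩

lemma walk_comp {a b c : Fin n} {s t : ℕ} (h1 : b ∈ (supMap H)^[s] {a})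
    (h2 : c ∈ (supMap H)^[t] {b}) : c ∈ (supMap H)^[s + t] {a} := by
  have h3 : ({b} : Set (Fin n)) ⊆ (supMap H)^[s] {a} := by simpa using h1
  have h4 := iter_mono H t h3 h2
  rw [← Function.iterate_add_apply, Nat.add_comm] at h4
  exact h4

/-- Everything is reached from `v`. -/
lemma univ_of_le {S : Set (Fin n)} {r t : ℕ} (hu : supMap H Set.univ = Set.univ)
    (h : (supMap H)^[r] S = Set.univ) (hrt : r ≤ t) : (supMap H)^[t] S = Set.univ := by
  obtain ⟨d, rfl⟩ := Nat.exists_eq_add_of_le hrt
  rw [Nat.add_comm, Function.iterate_add_apply, h]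
  clear hrt
  induction d with
  | zero => rfl
  | succ d ih => rw [Function.iterate_succ_apply', ih, hu]

lemma chain {c : Fin n} {s r : ℕ} (hu : supMap H Set.univ = Set.univ)
    (hprim : (supMap H)^[r] {c} = Set.univ) (hs : 1 ≤ s) (hc : c ∈ (supMap H)^[s] {c}) :
    (supMap H)^[s * (n - 1)] {c} = Set.univ := by
  have hn : 0 < n := c.pos
  have key : ∀ j : ℕ, (supMap H)^[s * j] {c} = Set.univ ∨
      j + 1 ≤ ((supMap H)^[s * j] {c}).ncard := by
    intro j
    induction j with
    | zero => right; simp
    | succ j ih =>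
      rcases ih with ih | ih
      · left
        exact univ_of_le H hu ih (Nat.mul_le_mul_left s (Nat.le_succ j))
      · have hmono : ∀ j, (supMap H)^[s * j] {c} ⊆ (supMap H)^[s * (j + 1)] {c} := by
          intro j
          have h1 : ({c} : Set (Fin n)) ⊆ (supMap H)^[s] {c} := by simpa using hc
          have h2 := iter_mono H (s * j) h1
          rwa [← Function.iterate_add_apply, ← Nat.mul_succ] at h2
        by_cases heq : (supMap H)^[s * j] {c} = (supMap H)^[s * (j + 1)] {c}
        · have hstab : ∀ i, (supMap H)^[s * (j + i)] {c} = (supMap H)^[s * j] {c} := by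
            intro i
            induction i with
            | zero => rfl
            | succ i ih2 =>
              have e1 : s * (j + (i + 1)) = s + s * (j + i) := by ring
              rw [e1, Function.iterate_add_apply, ih2, ← Function.iterate_add_apply,
                Nat.add_comm s (s * j), ← Nat.mul_succ]
              exact heq.symm
          left
          have h3 : (supMap H)^[s * (j + r)] {c} = Set.univ := by
            apply univ_of_le H hu hprim
            calc r ≤ 1 * (j + r) := by omega
              _ ≤ s * (j + r) := Nat.mul_le_mul_right _ hs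
          rw [hstab r] at h3
          rw [← heq, h3]
        · right
          have hss : (supMap H)^[s * j] {c} ⊂ (supMap H)^[s * (j + 1)] {c} :=
            lt_of_le_of_ne (hmono j) heq
          have := Set.ncard_lt_ncard hss (Set.toFinite _)
          omega
  rcases key (n - 1) with h | h
  · exact h
  · have h1 : n ≤ ((supMap H)^[s * (n - 1)] {c}).ncard := by omega
    apply Set.eq_univ_of_forall
    by_contra hne
    push Not at hne
    obtain ⟨x, hx⟩ := hne
    have h2 : (supMap H)^[s * (n - 1)] {c} ⊂ Set.univ := by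
      rw [Set.ssubset_univ_iff]
      intro he
      rw [he] at hx
      exact hx (Set.mem_univ x)
    have h3 := Set.ncard_lt_ncard h2 (Set.toFinite _)
    rw [Set.ncard_univ] at h3
    simp at h3
    omega

end Abstract

lemma structure_of_slow {n k : ℕ} (hn : 2 ≤ n) (H : Fin n → (Fin k → Fin n) → Prop) (r : ℕ)
    (hprim : ∀ v, (supMap H)^[r] {v} = Set.univ) (hu : supMap H Set.univ = Set.univ)
    (v : Fin n) (hv : (supMap H)^[(n - 1) ^ 2] {v} ≠ Set.univ) :
    ∃ σ : Equiv.Perm (Fin n), σ ⟨0, by omega⟩ = v ∧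
      ∀ i j : Fin n, H (σ i) (fun _ => σ j) ↔ W n i j := by
  -- no early cycle
  have key : ∀ (u : Fin n) (l s : ℕ), u ∈ (supMap H)^[l] {v} → 1 ≤ s →
      u ∈ (supMap H)^[s] {u} → l + s * (n - 1) ≤ (n - 1) ^ 2 → False := by
    intro u l s h1 hs h2 hle
    have h3 := chain H hu (hprim u) hs h2
    have h4 : ({u} : Set (Fin n)) ⊆ (supMap H)^[l] {v} := by simpa using h1
    have h5 := iter_mono H (s * (n - 1)) h4
    rw [h3, ← Function.iterate_add_apply] at h5
    have h6 := Set.univ_subset_iff.1 h5
    exact hv (univ_of_le H hu h6 (by omega))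
  have hne : ∀ x : Fin n, ∃ y, y ∈ supMap H {x} := by
    intro x
    by_contra hcon
    push Not at hcon
    have hemp : supMap H {x} = ∅ := Set.eq_empty_of_forall_notMem hcon
    have h1 : supMap H ∅ ⊆ ∅ := by
      have := supMap_mono H (Set.empty_subset {x})
      rw [hemp] at this
      exact this
    have h1' : supMap H ∅ = ∅ := Set.subset_empty_iff.1 h1
    have h2 : ∀ t, (supMap H)^[t] (∅ : Set (Fin n)) = ∅ := by
      intro t
      induction t with
      | zero => rfl
      | succ t ih => rw [Function.iterate_succ_apply, h1', ih]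
    have h3 : (supMap H)^[r + 1] {x} = Set.univ := univ_of_le H hu (hprim x) (Nat.le_succ r)
    rw [Function.iterate_succ_apply, hemp, h2] at h3
    have : x ∈ (∅ : Set (Fin n)) := by rw [h3]; trivial
    exact this
  choose next hnext using hne
  -- the walk
  let u : ℕ → Fin n := fun t => next^[t] v
  have hu0 : u 0 = v := rfl
  have hustep : ∀ t, u (t + 1) ∈ supMap H {u t} := by
    intro t
    have : u (t + 1) = next (u t) := by
      simp only [u]
      rw [Function.iterate_succ_apply']
    rw [this]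
    exact hnext _
  have hwalk : ∀ p d, u (p + d) ∈ (supMap H)^[d] {u p} := by
    intro p d
    induction d with
    | zero => simp
    | succ d ih =>
      have h1 : u (p + (d + 1)) ∈ (supMap H)^[1] {u (p + d)} := hustep (p + d)
      exact walk_comp H ih h1
  have hwalk' : ∀ p q, p ≤ q → u q ∈ (supMap H)^[q - p] {u p} := by
    intro p q hpq
    have := hwalk p (q - p)
    rwa [Nat.add_sub_cancel' hpq] at this
  have hreach : ∀ p, u p ∈ (supMap H)^[p] {v} := by
    intro p
    have := hwalk 0 p
    rwa [Nat.zero_add] at this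
  obtain ⟨N, rfl⟩ : ∃ N, n = N + 1 := ⟨n - 1, by omega⟩
  have hN : 1 ≤ N := by omega
  simp only [Nat.add_sub_cancel] at key hv
  -- arithmetic for the cycles
  have harith : ∀ p s, p + s ≤ N → p + s * N ≤ N ^ 2 := by
    intro p s hps
    obtain ⟨d, rfl⟩ := Nat.exists_eq_add_of_le hps
    nlinarith [Nat.zero_le (p * p), Nat.zero_le (p * s), Nat.zero_le (d * s), Nat.zero_le (p * d),
      Nat.zero_le d, Nat.le_mul_of_pos_right p (by omega : 0 < p + s + d)]
  have hinj : ∀ p q, p < q → q ≤ N → u p ≠ u q := by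
    intro p q hpq hq he
    refine key (u p) p (q - p) (hreach p) (by omega) ?_ (harith p (q - p) (by omega))
    have := hwalk' p q (by omega)
    rwa [← he] at this
  have hinj' : ∀ p q, p ≤ N → q ≤ N → u p = u q → p = q := by
    intro p q hp hq he
    rcases lt_trichotomy p q with h | h | h
    · exact absurd he (hinj p q h hq)
    · exact h
    · exact absurd he.symm (hinj q p h hp)
  let uf : Fin (N + 1) → Fin (N + 1) := fun i => u i
  have huf : Function.Injective uf := by
    intro a b hab
    exact Fin.ext (hinj' a b (by omega) (by omega) hab)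
  have hufs : Function.Surjective uf := Finite.surjective_of_injective huf
  have hcov : ∀ x : Fin (N + 1), ∃ p, p ≤ N ∧ u p = x := by
    intro x
    obtain ⟨i, hi⟩ := hufs x
    exact ⟨i, by omega, hi⟩
  -- the value at time `n`
  have hlast : ∃ p, p ≤ 1 ∧ u (N + 1) = u p := by
    obtain ⟨p, hp, hpe⟩ := hcov (u (N + 1))
    refine ⟨p, ?_, hpe.symm⟩
    by_contra hp2
    push Not at hp2
    refine key (u p) p (N + 1 - p) (hreach p) (by omega) ?_ ?_
    · have := hwalk' p (N + 1) (by omega)
      rwa [← hpe] at this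
    · obtain ⟨p', rfl⟩ : ∃ p', p = p' + 2 := ⟨p - 2, by omega⟩
      obtain ⟨d, rfl⟩ := Nat.exists_eq_add_of_le hp
      have e1 : p' + 2 + d + 1 - (p' + 2) = d + 1 := by omega
      rw [e1]
      nlinarith [Nat.zero_le (p' * p'), Nat.zero_le (p' * d), Nat.zero_le d, Nat.zero_le p']
  -- images of the middle vertices
  have hback : ∀ p l, l ≤ p → p + 1 ≤ N → u l ∉ supMap H {u p} := by
    intro p l hl hp hmem
    refine key (u l) l (p - l + 1) (hreach l) (by omega) ?_ (harith l (p - l + 1) (by omega))
    exact walk_comp H (hwalk' l p hl) hmem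
  have hmid : ∀ p, 1 ≤ p → p + 1 ≤ N → supMap H {u p} = {u (p + 1)} := by
    intro p hp1 hp2
    apply Set.Subset.antisymm
    · intro x hx
      obtain ⟨l, hl, rfl⟩ := hcov x
      by_cases h1 : l ≤ p
      · exact absurd hx (hback p l h1 hp2)
      · by_cases h2 : l = p + 1
        · rw [h2]; rfl
        · exfalso
          obtain ⟨q, hq, hqe⟩ := hlast
          refine key (u q) q ((p - q) + 1 + (N + 1 - l)) (hreach q) (by omega) ?_
            (harith q _ (by omega))
          have hx' : u l ∈ (supMap H)^[1] {u p} := hx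
          have h3 := walk_comp H (walk_comp H (hwalk' q p (by omega)) hx')
            (hwalk' l (N + 1) (by omega))
          rwa [hqe] at h3
    · intro x hx
      rw [Set.mem_singleton_iff.1 hx]
      exact hustep p
  have hlastsub : ∀ x ∈ supMap H {u N}, x = u 0 ∨ x = u 1 := by
    intro x hx
    obtain ⟨p, hp, rfl⟩ := hcov x
    by_cases hp1 : p ≤ 1
    · interval_cases p
      · left; rfl
      · right; rfl
    · exfalso
      refine key (u p) p (N - p + 1) (hreach p) (by omega) ?_ ?_
      · exact walk_comp H (hwalk' p N hp) hx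
      · obtain ⟨p', rfl⟩ : ∃ p', p = p' + 2 := ⟨p - 2, by omega⟩
        obtain ⟨d, rfl⟩ := Nat.exists_eq_add_of_le hp
        have e1 : p' + 2 + d - (p' + 2) + 1 = d + 1 := by omega
        rw [e1]
        nlinarith [Nat.zero_le (p' * p'), Nat.zero_le (p' * d), Nat.zero_le d, Nat.zero_le p']
  -- singletons cannot stay singletons
  have hsingle : ∀ x : Fin (N + 1), (∀ t, ∃ y, (supMap H)^[t] {x} = {y}) → False := by
    intro x hx
    obtain ⟨y, hy⟩ := hx r
    rw [hprim x] at hy
    have h0 : (⟨0, by omega⟩ : Fin (N + 1)) ∈ (Set.univ : Set (Fin (N + 1))) := trivial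
    have h1 : (⟨1, by omega⟩ : Fin (N + 1)) ∈ (Set.univ : Set (Fin (N + 1))) := trivial
    rw [hy] at h0 h1
    have h2 := (Set.mem_singleton_iff.1 h0).trans (Set.mem_singleton_iff.1 h1).symm
    have h3 := Fin.mk.inj_iff.1 h2
    omega
  have h0mem : u 0 ∈ supMap H {u N} := by
    by_contra hcon
    have hNs : supMap H {u N} = {u 1} := by
      apply Set.Subset.antisymm
      · intro x hx
        rcases hlastsub x hx with h | h
        · rw [h] at hx; exact absurd hx hcon
        · exact h
      · intro x hx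
        obtain ⟨y, hy⟩ := (⟨u (N + 1), hustep N⟩ : ∃ y, y ∈ supMap H {u N})
        rcases hlastsub y hy with h | h
        · rw [h] at hy; exact absurd hy hcon
        · rw [Set.mem_singleton_iff.1 hx, ← h]; exact hy
    apply hsingle (u 1)
    have : ∀ t, ∃ p, 1 ≤ p ∧ p ≤ N ∧ (supMap H)^[t] {u 1} = {u p} := by
      intro t
      induction t with
      | zero => exact ⟨1, le_refl 1, hN, rfl⟩
      | succ t ih =>
        obtain ⟨p, hp1, hp2, hp3⟩ := ih
        rw [Function.iterate_succ_apply', hp3]
        by_cases h : p = N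
        · subst h
          exact ⟨1, le_refl 1, hN, hNs⟩
        · exact ⟨p + 1, by omega, by omega, hmid p hp1 (by omega)⟩
    intro t
    obtain ⟨p, _, _, hp⟩ := this t
    exact ⟨_, hp⟩
  have hzero : supMap H {u 0} = {u 1} := by
    apply Set.Subset.antisymm
    · intro x hx
      obtain ⟨l, hl, rfl⟩ := hcov x
      by_cases h1 : l = 0
      · subst h1
        exact absurd hx (hback 0 0 (le_refl 0) hN)
      · by_cases h2 : l = 1
        · rw [h2]; rfl
        · exfalso
          refine key (u 0) 0 (1 + (N - l) + 1) (hreach 0) (by omega) ?_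
            (harith 0 _ (by omega))
          exact walk_comp H (walk_comp H (s := 1) hx (hwalk' l N hl)) h0mem
    · intro x hx
      rw [Set.mem_singleton_iff.1 hx]
      exact hustep 0
  have h1mem : u 1 ∈ supMap H {u N} := by
    by_contra hcon
    have hNs : supMap H {u N} = {u 0} := by
      apply Set.Subset.antisymm
      · intro x hx
        rcases hlastsub x hx with h | h
        · exact h
        · rw [h] at hx; exact absurd hx hcon
      · intro x hx
        rw [Set.mem_singleton_iff.1 hx]
        exact h0mem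
    apply hsingle (u 0)
    have : ∀ t, ∃ p, p ≤ N ∧ (supMap H)^[t] {u 0} = {u p} := by
      intro t
      induction t with
      | zero => exact ⟨0, by omega, rfl⟩
      | succ t ih =>
        obtain ⟨p, hp2, hp3⟩ := ih
        rw [Function.iterate_succ_apply', hp3]
        by_cases h : p = N
        · subst h
          exact ⟨0, by omega, hNs⟩
        · by_cases h0 : p = 0
          · subst h0
            exact ⟨1, hN, hzero⟩
          · exact ⟨p + 1, by omega, hmid p (by omega) (by omega)⟩
    intro t
    obtain ⟨p, _, hp⟩ := this t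
    exact ⟨_, hp⟩
  -- the relabelling
  let e : Fin (N + 1) → Fin (N + 1) := fun i => if (i : ℕ) = 0 then u 0 else u (N + 1 - i)
  have he0 : e ⟨0, by omega⟩ = u 0 := by simp [e]
  have hepos : ∀ i : Fin (N + 1), (i : ℕ) ≠ 0 → e i = u (N + 1 - i) := by
    intro i hi
    simp only [e, if_neg hi]
  have heinj : Function.Injective e := by
    intro a b hab
    by_cases ha : (a : ℕ) = 0
    · by_cases hb : (b : ℕ) = 0
      · exact Fin.ext (by omega)
      · have ha' : a = ⟨0, by omega⟩ := Fin.ext ha
        rw [ha', he0, hepos b hb] at hab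
        have := hinj' 0 (N + 1 - b) (by omega) (by omega) hab
        omega
    · by_cases hb : (b : ℕ) = 0
      · have hb' : b = ⟨0, by omega⟩ := Fin.ext hb
        rw [hb', he0, hepos a ha] at hab
        have := hinj' (N + 1 - a) 0 (by omega) (by omega) hab
        omega
      · rw [hepos a ha, hepos b hb] at hab
        have := hinj' (N + 1 - a) (N + 1 - b) (by omega) (by omega) hab
        exact Fin.ext (by omega)
  let σ : Equiv.Perm (Fin (N + 1)) := Equiv.ofBijective e (Finite.injective_iff_bijective.1 heinj)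
  have hσ : ∀ i, σ i = e i := fun i => rfl
  refine ⟨σ, ?_, ?_⟩
  · rw [hσ, he0]
    exact hu0
  · intro i j
    rw [← mem_single H (σ i) (σ j), hσ, hσ]
    -- the index of `e i` in the walk
    by_cases hj0 : (j : ℕ) = 0
    · have hj' : j = ⟨0, by omega⟩ := Fin.ext hj0
      rw [hj', he0, hzero]
      simp only [Set.mem_singleton_iff, W]
      have h1 : u 1 = e ⟨N, by omega⟩ := by
        rw [hepos _ (by simp; omega)]
        congr 1
        simp
      rw [h1]
      constructor
      · intro h
        have := heinj h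
        rw [this]
        right
        simp
      · rintro (h | h)
        · simp at h
        · have : i = ⟨N, by omega⟩ := Fin.ext (show (i : ℕ) = N by omega)
          rw [this]
    · by_cases hj1 : (j : ℕ) = 1
      · rw [hepos j hj0, hj1]
        simp only [Nat.add_sub_cancel, W]
        constructor
        · intro h
          rcases hlastsub _ h with h' | h'
          · left
            rw [← he0] at h'
            have := heinj h'
            rw [this]
          · right
            have h1 : u 1 = e ⟨N, by omega⟩ := by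
              rw [hepos _ (by simp; omega)]
              congr 1
              simp
            rw [h1] at h'
            have := heinj h'
            rw [this]
            simp
        · rintro (h | ⟨h, _⟩)
          · have : i = ⟨0, by omega⟩ := Fin.ext (show (i : ℕ) = 0 by omega)
            rw [this, he0]
            exact h0mem
          · have h1 : u 1 = e i := by
              rw [hepos i (by omega)]
              congr 1
              omega
            rw [← h1]
            exact h1mem
      · rw [hepos j hj0, hmid (N + 1 - j) (by omega) (by omega)]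
        simp only [Set.mem_singleton_iff, W]
        have h1 : u (N + 1 - j + 1) = e ⟨(j : ℕ) - 1, by omega⟩ := by
          rw [hepos _ (by simp; omega)]
          congr 1
          simp
          omega
        rw [h1]
        constructor
        · intro h
          have := heinj h
          rw [this]
          left
          simp
          omega
        · rintro (h | ⟨h, h' | h'⟩)
          · congr 1
            apply Fin.ext
            simp
            omega
          · omega
          · omega

section WielandtPattern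

variable {N k : ℕ} (H : Fin (N + 1) → (Fin k → Fin (N + 1)) → Prop)

lemma reach_rep (hN : 1 ≤ N) (hW : ∀ i j : Fin (N + 1), H i (fun _ => j) ↔ W (N + 1) i j) :
    ∀ (t : ℕ) (i : Fin (N + 1)) (a b : ℕ), t = (N + 1 - i) + a * (N + 1) + b * N →
      i ∈ (supMap H)^[t] {⟨0, by omega⟩} := by
  intro t
  induction t with
  | zero =>
    intro i a b h
    have := i.2
    omega
  | succ t ih =>
    intro i a b h
    have hi := i.2
    by_cases hiN : (i : ℕ) = N
    · by_cases ha : a = 0
      · by_cases hb : b = 0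
        · subst ha; subst hb
          have ht : t = 0 := by omega
          subst ht
          show i ∈ supMap H {⟨0, by omega⟩}
          rw [mem_single, hW]
          right
          exact ⟨by omega, Or.inl rfl⟩
        · obtain ⟨b', rfl⟩ : ∃ b', b = b' + 1 := ⟨b - 1, by omega⟩
          have h1 : (⟨1, by omega⟩ : Fin (N + 1)) ∈ (supMap H)^[t] {⟨0, by omega⟩} := by
            apply ih ⟨1, by omega⟩ a b'
            have e1 : (b' + 1) * N = b' * N + N := by ring
            simp only
            omega
          have h2 : i ∈ (supMap H)^[1] {(⟨1, by omega⟩ : Fin (N + 1))} := by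
            show i ∈ supMap H {⟨1, by omega⟩}
            rw [mem_single, hW]
            right
            exact ⟨by omega, Or.inr rfl⟩
          exact walk_comp H h1 h2
      · obtain ⟨a', rfl⟩ : ∃ a', a = a' + 1 := ⟨a - 1, by omega⟩
        have h1 : (⟨0, by omega⟩ : Fin (N + 1)) ∈ (supMap H)^[t] {⟨0, by omega⟩} := by
          apply ih ⟨0, by omega⟩ a' b
          have e1 : (a' + 1) * (N + 1) = a' * (N + 1) + (N + 1) := by ring
          simp only
          omega
        have h2 : i ∈ (supMap H)^[1] {(⟨0, by omega⟩ : Fin (N + 1))} := by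
          show i ∈ supMap H {⟨0, by omega⟩}
          rw [mem_single, hW]
          right
          exact ⟨by omega, Or.inl rfl⟩
        exact walk_comp H h1 h2
    · have h1 : (⟨(i : ℕ) + 1, by omega⟩ : Fin (N + 1)) ∈ (supMap H)^[t] {⟨0, by omega⟩} := by
        apply ih ⟨(i : ℕ) + 1, by omega⟩ a b
        simp only
        omega
      have h2 : i ∈ (supMap H)^[1] {(⟨(i : ℕ) + 1, by omega⟩ : Fin (N + 1))} := by
        show i ∈ supMap H {⟨(i : ℕ) + 1, by omega⟩}
        rw [mem_single, hW]
        left
        rfl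
      exact walk_comp H h1 h2

lemma down (hW : ∀ i j : Fin (N + 1), H i (fun _ => j) ↔ W (N + 1) i j) :
    ∀ (d : ℕ) (i : Fin (N + 1)) (hd : d ≤ i),
      (⟨(i : ℕ) - d, by omega⟩ : Fin (N + 1)) ∈ (supMap H)^[d] {i} := by
  intro d
  induction d with
  | zero =>
    intro i _
    simp
  | succ d ih =>
    intro i hd
    have h1 := ih i (by omega)
    have h2 : (⟨(i : ℕ) - (d + 1), by omega⟩ : Fin (N + 1)) ∈
        (supMap H)^[1] {(⟨(i : ℕ) - d, by omega⟩ : Fin (N + 1))} := by
      show _ ∈ supMap H {(⟨(i : ℕ) - d, by omega⟩ : Fin (N + 1))}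
      rw [mem_single, hW]
      left
      simp only
      omega
    exact walk_comp H h1 h2

/-- If some entry violates the condition, everything is reached early. -/
lemma fast_of_violation (hN : 1 ≤ N)
    (hW : ∀ i j : Fin (N + 1), H i (fun _ => j) ↔ W (N + 1) i j)
    (i : Fin (N + 1)) (f : Fin k → Fin (N + 1)) (hk : 0 < k) (hf : H i f)
    (h1 : ∀ s, (f s : ℕ) ≠ i + 1) (h2 : ∀ s, ¬ ((f s : ℕ) + (N - 1) ≤ i)) :
    (supMap H)^[N ^ 2] {⟨0, by omega⟩} = Set.univ := by
  have hi := i.2
  have hN2 : 2 ≤ N := by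
    by_contra hcon
    have hN1 : N = 1 := by omega
    have hs0 := h1 ⟨0, hk⟩
    have hs1 := h2 ⟨0, hk⟩
    have hs2 := (f ⟨0, hk⟩).2
    subst hN1
    omega
  -- representation of the entries of `f`
  have hrep : ∀ j : Fin (N + 1), (j : ℕ) ≠ i + 1 → ¬ ((j : ℕ) + (N - 1) ≤ i) →
      j ∈ (supMap H)^[N ^ 2 - 1 - i] {⟨0, by omega⟩} := by
    intro j hj1 hj2
    have hj := j.2
    by_cases hlt : (i : ℕ) + 2 ≤ j
    · apply reach_rep H hN hW _ j ((j : ℕ) - i - 2) (N + 1 - (j - i))
      obtain ⟨e, he⟩ := Nat.exists_eq_add_of_le hlt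
      obtain ⟨g, hg⟩ : ∃ g, N = (j : ℕ) + g := ⟨N - j, by omega⟩
      have e1 : (j : ℕ) - i - 2 = e := by omega
      have e2 : N + 1 - (j - i) = (i : ℕ) + g + 1 := by omega
      rw [e1, e2]
      have e3 : N = (i : ℕ) + 2 + e + g := by omega
      have e4 : N + 1 - (j : ℕ) = g + 1 := by omega
      rw [e4]
      have gen : ∀ x e g M : ℕ, M = x + 2 + e + g →
          M ^ 2 = (1 + x) + (g + 1 + e * (M + 1) + (x + g + 1) * M) := by
        intro x e g M hM
        subst hM
        ring
      have e5 := gen i e g N e3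
      omega
    · have hle : (j : ℕ) ≤ i := by omega
      apply reach_rep H hN hW _ j (N - 2 - (i - j)) (i - j)
      obtain ⟨c, hc⟩ := Nat.exists_eq_add_of_le hle
      obtain ⟨g, hg⟩ : ∃ g, N = c + 2 + g := ⟨N - c - 2, by omega⟩
      have e1 : (i : ℕ) - j = c := by omega
      rw [e1]
      have e2 : N - 2 - c = g := by omega
      rw [e2]
      obtain ⟨q, hq⟩ : ∃ q, N + 1 = (j : ℕ) + q := ⟨N + 1 - j, by omega⟩
      have e4 : N + 1 - (j : ℕ) = q := by omega
      rw [e4]
      have e5 : N ^ 2 = (1 + i) + (q + g * (N + 1) + c * N) := by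
        have e6 : q + 1 + (i : ℕ) = N + 2 + c := by omega
        have e7 : (1 + i) + (q + g * (N + 1) + c * N) = (N + 2 + c) + g * (N + 1) + c * N := by
          omega
        rw [e7, hg]
        ring
      omega
  have hit : i ∈ (supMap H)^[N ^ 2 - 1 - i + 1] {⟨0, by omega⟩} := by
    rw [Function.iterate_succ_apply']
    exact ⟨f, hf, fun s => hrep (f s) (h1 s) (h2 s)⟩
  have hz : (⟨0, by omega⟩ : Fin (N + 1)) ∈ (supMap H)^[N ^ 2] {⟨0, by omega⟩} := by
    have h3 := down H hW i i (le_refl _)
    have h4 := walk_comp H hit h3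
    have hsq : 2 * N ≤ N ^ 2 := by nlinarith
    have e1 : N ^ 2 - 1 - i + 1 + i = N ^ 2 := by omega
    rw [e1] at h4
    convert h4 using 2
    simp
  apply Set.eq_univ_of_forall
  intro j
  have hj := j.2
  by_cases hj0 : (j : ℕ) = 0
  · have : j = ⟨0, by omega⟩ := Fin.ext hj0
    rw [this]
    exact hz
  · apply reach_rep H hN hW _ j (j - 1) (N - j)
    obtain ⟨j', hj'⟩ : ∃ j', (j : ℕ) = j' + 1 := ⟨j - 1, by omega⟩
    obtain ⟨g, hg⟩ : ∃ g, N = (j : ℕ) + g := ⟨N - j, by omega⟩
    have e1 : (j : ℕ) - 1 = j' := by omega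
    have e2 : N - (j : ℕ) = g := by omega
    have e3 : N + 1 - (j : ℕ) = g + 1 := by omega
    rw [e1, e2, e3]
    have e4 : N = j' + 1 + g := by omega
    rw [e4]
    ring

/-- Under the condition, the sets grow as slowly as for the Wielandt matrix. -/
lemma slow (hN : 1 ≤ N) (hW : ∀ i j : Fin (N + 1), H i (fun _ => j) ↔ W (N + 1) i j)
    (hc : ∀ i f, H i f → ∃ s, (f s : ℕ) = (i : ℕ) + 1 ∨ (f s : ℕ) + (N - 1) ≤ i) :
    ∀ (t : ℕ) (i : Fin (N + 1)), i ∈ (supMap H)^[t] {⟨0, by omega⟩} →
      (t = 0 ∧ (i : ℕ) = 0) ∨ ∃ a b, t = (N + 1 - i) + a * (N + 1) + b * N := by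
  intro t
  induction t with
  | zero =>
    intro i hi
    left
    have : i = ⟨0, by omega⟩ := hi
    rw [this]
    simp
  | succ t ih =>
    intro i hi
    rw [Function.iterate_succ_apply'] at hi
    obtain ⟨f, hf, hs⟩ := hi
    obtain ⟨s, hs1⟩ := hc i f hf
    have hi2 := i.2
    have hih := ih (f s) (hs s)
    right
    rcases hs1 with hs1 | hs1
    · rcases hih with ⟨_, h⟩ | ⟨a, b, h⟩
      · omega
      · exact ⟨a, b, by omega⟩
    · rcases hih with ⟨ht, h⟩ | ⟨a, b, h⟩
      · by_cases hiN : (i : ℕ) = N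
        · exact ⟨0, 0, by omega⟩
        · exfalso
          subst ht
          have hf0 : f = fun _ => (⟨0, by omega⟩ : Fin (N + 1)) := by
            funext s'
            exact hs s'
          rw [hf0, hW] at hf
          rcases hf with hf | ⟨hf, _⟩
          · simp at hf
          · omega
      · by_cases hiN : (i : ℕ) = N
        · by_cases hf0 : (f s : ℕ) = 0
          · refine ⟨a + 1, b, ?_⟩
            have e1 : (a + 1) * (N + 1) = a * (N + 1) + (N + 1) := by ring
            omega
          · refine ⟨a, b + 1, ?_⟩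
            have e1 : (b + 1) * N = b * N + N := by ring
            omega
        · refine ⟨a, b + 1, ?_⟩
          have e1 : (b + 1) * N = b * N + N := by ring
          omega

lemma not_univ_of_cond (hN : 1 ≤ N) (hW : ∀ i j : Fin (N + 1), H i (fun _ => j) ↔ W (N + 1) i j)
    (hc : ∀ i f, H i f → ∃ s, (f s : ℕ) = (i : ℕ) + 1 ∨ (f s : ℕ) + (N - 1) ≤ i) :
    (supMap H)^[N ^ 2] {⟨0, by omega⟩} ≠ Set.univ := by
  intro h
  have h0 : (⟨0, by omega⟩ : Fin (N + 1)) ∈ (supMap H)^[N ^ 2] {⟨0, by omega⟩} := by
    rw [h]; trivial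
  rcases slow H hN hW hc _ _ h0 with ⟨h1, _⟩ | ⟨a, b, h1⟩
  · have : 0 < N ^ 2 := by positivity
    omega
  · simp only [Nat.sub_zero] at h1
    -- N ^ 2 = (N + 1) (a + 1) + b N
    have hbN : b < N := by
      by_contra hcon
      push Not at hcon
      have : N * N ≤ b * N := Nat.mul_le_mul_right N hcon
      nlinarith [Nat.zero_le (a * (N + 1))]
    obtain ⟨d, hd⟩ : ∃ d, N = b + d := ⟨N - b, by omega⟩
    have h2 : (N + 1) * (a + 1) = N * d := by
      have e1 : N ^ 2 = N * b + N * d := by rw [← Nat.mul_add, ← hd]; ring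
      nlinarith
    have hcop : Nat.Coprime (N + 1) N := by simp
    have hdvd : (N + 1) ∣ d := by
      apply hcop.dvd_of_dvd_mul_left
      rw [← h2]
      exact Dvd.intro _ rfl
    have := Nat.le_of_dvd (by omega) hdvd
    omega

/-- With the Wielandt pattern everything is reached in time `N ^ 2 + 1`. -/
lemma univ_of_wielandt (hN : 1 ≤ N)
    (hW : ∀ i j : Fin (N + 1), H i (fun _ => j) ↔ W (N + 1) i j)
    (v : Fin (N + 1)) : (supMap H)^[N ^ 2 + 1] {v} = Set.univ := by
  have hzero : (supMap H)^[N ^ 2 + 1] {(⟨0, by omega⟩ : Fin (N + 1))} = Set.univ := by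
    apply Set.eq_univ_of_forall
    intro i
    have hi := i.2
    by_cases hiN : (i : ℕ) = N
    · apply reach_rep H hN hW _ i 0 N
      have e1 : N + 1 - (i : ℕ) = 1 := by omega
      rw [e1]
      ring
    · apply reach_rep H hN hW _ i i (N - 1 - i)
      obtain ⟨g, hg⟩ : ∃ g, N = (i : ℕ) + 1 + g := ⟨N - i - 1, by omega⟩
      have e1 : N + 1 - (i : ℕ) = g + 2 := by omega
      have e2 : N - 1 - (i : ℕ) = g := by omega
      have gen : ∀ x g M : ℕ, M = x + 1 + g →
          M ^ 2 + 1 = g + 2 + x * (M + 1) + g * M := by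
        intro x g M hM
        subst hM
        ring
      rw [e1, e2]
      exact gen i g N hg
  have huniv : supMap H Set.univ = Set.univ := by
    apply Set.eq_univ_of_forall
    intro i
    have hi := i.2
    by_cases hiN : (i : ℕ) = N
    · refine ⟨fun _ => ⟨0, by omega⟩, ?_, fun _ => trivial⟩
      rw [hW]
      right
      exact ⟨by omega, Or.inl rfl⟩
    · refine ⟨fun _ => ⟨(i : ℕ) + 1, by omega⟩, ?_, fun _ => trivial⟩
      rw [hW]
      left
      rfl
  by_cases hv : (v : ℕ) = 0
  · have : v = ⟨0, by omega⟩ := Fin.ext hv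
    rw [this]
    exact hzero
  · have hlastz : supMap H {(⟨0, by omega⟩ : Fin (N + 1))} = {⟨N, by omega⟩} := by
      ext i
      have hi := i.2
      rw [mem_single, hW, Set.mem_singleton_iff]
      simp only [W]
      constructor
      · rintro (h | ⟨h, _⟩)
        · simp at h
        · exact Fin.ext (show (i : ℕ) = N by omega)
      · intro h
        rw [h]
        right
        simp
    have hlast : (supMap H)^[N ^ 2] {(⟨N, by omega⟩ : Fin (N + 1))} = Set.univ := by
      rw [Function.iterate_succ_apply, hlastz] at hzero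
      exact hzero
    -- `v` reaches the last label and comes back
    have h1 : (⟨1, by omega⟩ : Fin (N + 1)) ∈ (supMap H)^[(v : ℕ) - 1] {v} := by
      have := down H hW ((v : ℕ) - 1) v (by omega)
      convert this using 2
      omega
    have h2 : (⟨N, by omega⟩ : Fin (N + 1)) ∈
        (supMap H)^[1] {(⟨1, by omega⟩ : Fin (N + 1))} := by
      show _ ∈ supMap H {(⟨1, by omega⟩ : Fin (N + 1))}
      rw [mem_single, hW]
      right
      exact ⟨by simp, Or.inr rfl⟩
    have h3 := walk_comp H h1 h2
    have h4 : v ∈ (supMap H)^[N - v] {(⟨N, by omega⟩ : Fin (N + 1))} := by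
      have hv2 := v.2
      have := down H hW (N - v) (⟨N, by omega⟩ : Fin (N + 1)) (by simp)
      convert this using 2
      simp
      omega
    have h5 := walk_comp H h3 h4
    have e1 : (v : ℕ) - 1 + 1 + (N - v) = N := by have := v.2; omega
    rw [e1] at h5
    have hprim : (supMap H)^[N ^ 2 + ((v : ℕ) - 1 + 1)] {v} = Set.univ := by
      have h6 : ({(⟨N, by omega⟩ : Fin (N + 1))} : Set (Fin (N + 1))) ⊆
          (supMap H)^[(v : ℕ) - 1 + 1] {v} := by simpa using h3
      have h7 := iter_mono H (N ^ 2) h6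
      rw [hlast, ← Function.iterate_add_apply] at h7
      exact Set.univ_subset_iff.1 h7
    have h8 := chain H huniv hprim hN h5
    have e2 : N * (N + 1 - 1) = N ^ 2 := by
      simp
      ring
    rw [e2] at h8
    exact univ_of_le H huniv h8 (Nat.le_succ _)

end WielandtPattern

section Relabel

variable {n k : ℕ} (H : Fin n → (Fin k → Fin n) → Prop) (σ : Equiv.Perm (Fin n))

lemma supMap_image (S : Set (Fin n)) :
    supMap H (σ '' S) = σ '' supMap (fun i f => H (σ i) (fun s => σ (f s))) S := by
  ext x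
  constructor
  · rintro ⟨f, hf, hs⟩
    refine ⟨σ.symm x, ⟨fun s => σ.symm (f s), ?_, ?_⟩, by simp⟩
    · simpa using hf
    · intro s
      obtain ⟨y, hy, hy2⟩ := hs s
      have : σ.symm (f s) = y := by rw [← hy2]; simp
      simpa [this] using hy
  · rintro ⟨i, ⟨f, hf, hs⟩, rfl⟩
    exact ⟨fun s => σ (f s), hf, fun s => ⟨f s, hs s, rfl⟩⟩

lemma iter_image (t : ℕ) (S : Set (Fin n)) :
    (supMap H)^[t] (σ '' S) =
      σ '' (supMap (fun i f => H (σ i) (fun s => σ (f s))))^[t] S := by
  induction t with
  | zero => rfl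
  | succ t ih => rw [Function.iterate_succ_apply', Function.iterate_succ_apply', ih, supMap_image]

lemma iter_single (t : ℕ) (v : Fin n) :
    (supMap H)^[t] {σ v} = Set.univ ↔
      (supMap (fun i f => H (σ i) (fun s => σ (f s))))^[t] {v} = Set.univ := by
  have h := iter_image H σ t {v}
  rw [Set.image_singleton] at h
  rw [h]
  constructor
  · intro h2
    apply Set.eq_univ_of_forall
    intro x
    have : σ x ∈ σ '' (supMap (fun i f => H (σ i) (fun s => σ (f s))))^[t] {v} := by
      rw [h2]; trivial
    obtain ⟨y, hy, hy2⟩ := this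
    rwa [σ.injective hy2] at hy
  · intro h2
    rw [h2, Set.image_univ, σ.range_eq_univ]

end Relabel

/-- The combinatorial core. -/
lemma core {n k : ℕ} (hn : 2 ≤ n) (hk : 0 < k) (H : Fin n → (Fin k → Fin n) → Prop) :
    ((∀ v, (supMap H)^[(n - 1) ^ 2 + 1] {v} = Set.univ) ∧
      ∃ v, (supMap H)^[(n - 1) ^ 2] {v} ≠ Set.univ) ↔
    ∃ σ : Equiv.Perm (Fin n), (∀ i j : Fin n, H (σ i) (fun _ => σ j) ↔ W n i j) ∧
      ∀ (i : Fin n) (f : Fin k → Fin n), H (σ i) (fun s => σ (f s)) →
        ∃ s, (f s : ℕ) = (i : ℕ) + 1 ∨ (f s : ℕ) + (n - 2) ≤ i := by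
  obtain ⟨N, rfl⟩ : ∃ N, n = N + 1 := ⟨n - 1, by omega⟩
  have hN : 1 ≤ N := by omega
  simp only [Nat.add_sub_cancel]
  have e0 : N + 1 - 2 = N - 1 := by omega
  rw [e0]
  constructor
  · rintro ⟨h1, v, hv⟩
    have hu : supMap H Set.univ = Set.univ := by
      have h3 : (supMap H)^[N ^ 2 + 1] {v} ⊆ supMap H Set.univ := by
        rw [Function.iterate_succ_apply']
        exact supMap_mono H (Set.subset_univ _)
      rw [h1 v] at h3
      exact Set.univ_subset_iff.1 h3
    obtain ⟨σ, hσ0, hσ⟩ := structure_of_slow hn H (N ^ 2 + 1) h1 hu v (by simpa using hv)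
    refine ⟨σ, hσ, ?_⟩
    intro i f hf
    by_contra hcon
    push Not at hcon
    apply hv
    rw [← hσ0, iter_single]
    exact fast_of_violation (fun i f => H (σ i) (fun s => σ (f s))) hN hσ i f hk hf
      (fun s => (hcon s).1) (fun s => by have := (hcon s).2; omega)
  · rintro ⟨σ, hσ, hc⟩
    constructor
    · intro v
      have h1 := univ_of_wielandt (fun i f => H (σ i) (fun s => σ (f s))) hN hσ (σ.symm v)
      rw [← iter_single] at h1
      simpa using h1
    · refine ⟨σ ⟨0, by omega⟩, ?_⟩
      intro h1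
      rw [iter_single] at h1
      exact not_univ_of_cond (fun i f => H (σ i) (fun s => σ (f s))) hN hσ hc h1

lemma tensorApply_nonneg {m n : ℕ} (A : Tensor m n) (hA : ∀ i f, 0 ≤ A i f) (x : Fin n → ℝ)
    (hx : ∀ i, 0 ≤ x i) (i : Fin n) : 0 ≤ tensorApply A x i :=
  Finset.sum_nonneg fun f _ => mul_nonneg (hA i f) (Finset.prod_nonneg fun s _ => hx (f s))

lemma tensorMap_nonneg {m n : ℕ} (A : Tensor m n) (hA : ∀ i f, 0 ≤ A i f) (x : Fin n → ℝ)
    (hx : ∀ i, 0 ≤ x i) (i : Fin n) : 0 ≤ tensorMap A x i :=
  Real.rpow_nonneg (tensorApply_nonneg A hA x hx i) _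

lemma tensorMap_pos_iff {m n : ℕ} (hm : 2 ≤ m) (A : Tensor m n) (hA : ∀ i f, 0 ≤ A i f)
    (x : Fin n → ℝ) (hx : ∀ i, 0 ≤ x i) (i : Fin n) :
    0 < tensorMap A x i ↔ i ∈ supMap (fun i f => A i f ≠ 0) {j | 0 < x j} := by
  have hm' : (0 : ℝ) < (m : ℝ) - 1 := by
    have : (2 : ℝ) ≤ m := by exact_mod_cast hm
    linarith
  have hexp : (1 : ℝ) / ((m : ℝ) - 1) ≠ 0 := by positivity
  have h1 : 0 < tensorMap A x i ↔ 0 < tensorApply A x i := by
    unfold tensorMap
    constructor
    · intro h
      rcases (tensorApply_nonneg A hA x hx i).lt_or_eq with h2 | h2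
      · exact h2
      · rw [← h2, Real.zero_rpow hexp] at h
        exact absurd h (lt_irrefl 0)
    · intro h
      exact Real.rpow_pos_of_pos h _
  rw [h1]
  unfold tensorApply
  rw [Finset.sum_pos_iff_of_nonneg
    (fun f _ => mul_nonneg (hA i f) (Finset.prod_nonneg fun s _ => hx (f s)))]
  constructor
  · rintro ⟨f, _, hf⟩
    refine ⟨f, ?_, ?_⟩
    · intro h0
      rw [h0, zero_mul] at hf
      exact lt_irrefl 0 hf
    · intro s
      rcases (hx (f s)).lt_or_eq with h2 | h2
      · exact h2
      · exfalso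
        rw [Finset.prod_eq_zero (Finset.mem_univ s) h2.symm, mul_zero] at hf
        exact lt_irrefl 0 hf
  · rintro ⟨f, hf, hs⟩
    exact ⟨f, Finset.mem_univ f,
      mul_pos (lt_of_le_of_ne (hA i f) (Ne.symm hf)) (Finset.prod_pos fun s _ => hs s)⟩

lemma tensorMap_iter {m n : ℕ} (hm : 2 ≤ m) (A : Tensor m n) (hA : ∀ i f, 0 ≤ A i f)
    (x : Fin n → ℝ) (hx : ∀ i, 0 ≤ x i) (r : ℕ) :
    (∀ i, 0 ≤ ((tensorMap A)^[r] x) i) ∧
      {i | 0 < ((tensorMap A)^[r] x) i} =
        (supMap (fun i f => A i f ≠ 0))^[r] {j | 0 < x j} := by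
  induction r with
  | zero => exact ⟨hx, rfl⟩
  | succ r ih =>
    rw [Function.iterate_succ_apply', Function.iterate_succ_apply', ← ih.2]
    refine ⟨fun i => tensorMap_nonneg A hA _ ih.1 i, ?_⟩
    ext i
    exact tensorMap_pos_iff hm A hA _ ih.1 i

lemma works_iff {m n : ℕ} (hm : 2 ≤ m) (A : Tensor m n) (hA : ∀ i f, 0 ≤ A i f) (r : ℕ) :
    (∀ x : Fin n → ℝ, (∀ i, 0 ≤ x i) → x ≠ 0 → ∀ i, 0 < ((tensorMap A)^[r] x) i) ↔
      ∀ v, (supMap (fun i f => A i f ≠ 0))^[r] {v} = Set.univ := by
  constructor
  · intro h v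
    have hx : ∀ i, 0 ≤ (Pi.single v (1 : ℝ) : Fin n → ℝ) i := by
      intro i
      by_cases hi : i = v
      · subst hi; simp
      · simp [Pi.single_eq_of_ne hi]
    have hne : (Pi.single v (1 : ℝ) : Fin n → ℝ) ≠ 0 := by
      intro h0
      have := congrFun h0 v
      simp at this
    have h1 := (tensorMap_iter hm A hA _ hx r).2
    have h2 : {j : Fin n | 0 < (Pi.single v (1 : ℝ) : Fin n → ℝ) j} = {v} := by
      ext j
      by_cases hj : j = v
      · subst hj; simp
      · simp [hj]
    rw [h2] at h1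
    rw [← h1]
    apply Set.eq_univ_of_forall
    intro i
    exact h _ hx hne i
  · intro h x hx hne i
    have hex : ∃ v, 0 < x v := by
      by_contra hcon
      push Not at hcon
      apply hne
      funext v
      exact le_antisymm (hcon v) (hx v)
    obtain ⟨v, hv⟩ := hex
    have h1 := (tensorMap_iter hm A hA x hx r).2
    have h2 : ({v} : Set (Fin n)) ⊆ {j | 0 < x j} := by
      intro j hj
      rw [Set.mem_singleton_iff.1 hj]
      exact hv
    have h3 := iter_mono (fun i f => A i f ≠ 0) r h2
    rw [h v, ← h1] at h3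
    exact h3 (Set.mem_univ i)

/-- **Characterisation of the extremal primitive tensors.** -/
theorem result (m n : ℕ) (hm : 2 ≤ m) (hn : 2 ≤ n) (A : Tensor m n) (hA : ∀ i f, 0 ≤ A i f) :
    HasPrimitiveDegree A ((n - 1) ^ 2 + 1) ↔
      ∃ σ : Equiv.Perm (Fin n), (∀ i j : Fin n, A (σ i) (fun _ => σ j) ≠ 0 ↔ W n i j) ∧
        ∀ (i : Fin n) (f : Fin (m - 1) → Fin n), A (σ i) (fun s => σ (f s)) ≠ 0 →
          ∃ s, (f s : ℕ) = (i : ℕ) + 1 ∨ (f s : ℕ) + (n - 2) ≤ i := by
  rw [← core hn (by omega : 0 < m - 1) (fun i f => A i f ≠ 0)]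
  have hpos : 0 < (n - 1) ^ 2 := by
    have : 0 < n - 1 := by omega
    positivity
  constructor
  · rintro ⟨⟨_, h1⟩, h2⟩
    refine ⟨(works_iff hm A hA _).1 h1, ?_⟩
    by_contra hcon
    push Not at hcon
    have := h2 ⟨hpos, (works_iff hm A hA _).2 hcon⟩
    omega
  · rintro ⟨h1, v, hv⟩
    refine ⟨⟨Nat.succ_pos _, (works_iff hm A hA _).2 h1⟩, ?_⟩
    rintro r ⟨_, hr⟩
    by_contra hcon
    push Not at hcon
    have h3 := (works_iff hm A hA _).1 hr v
    have hu : supMap (fun i f => A i f ≠ 0) Set.univ = Set.univ := by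
      have h4 : (supMap (fun i f => A i f ≠ 0))^[(n - 1) ^ 2 + 1] {v} ⊆
          supMap (fun i f => A i f ≠ 0) Set.univ := by
        rw [Function.iterate_succ_apply']
        exact supMap_mono _ (Set.subset_univ _)
      rw [h1 v] at h4
      exact Set.univ_subset_iff.1 h4
    exact hv (univ_of_le _ hu h3 (by omega))

end Pool.Agent.Results.MP_9d720b_co.ExtremalTensors
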